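import Pool.Agent.N818.SN.Stm
import Pool.Agent.Z864.LQ.Lq
import Pool.Agent.N407.SL.N2core
import Pool.Agent.N499.SL.S2a

/-!
# SN-T2B, SN-T2C, SN-T3 (project SN, helper818): the local conditions at two, three and the real place

For `n = 3 mod 8` the classes of the first coordinates of the points of the isogenous curve over `ℚ_2` are
those of the integers one modulo four (`α = 1`) and of the odd integers (`α = -14`); for `n = 2 mod 3` all
squarefree classes occur over `ℚ_3`, and over the reals for `0 < n`.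
-/

set_option autoImplicit false

open scoped Classical

namespace Pool.Agent.N216.SN

open Pool.Agent.N818.SN
open Pool.Agent.Z702 (LocI WZ)
open Pool.Agent.N407.SL (φ norm_φ unit_add norm_odd sq_ne unit_sq root_int exists_u)
open Pool.Agent.N499.SL (sq_res cast8)

/-! ### Tools -/

/-- integers congruent to one modulo eight are squares in `ℚ_2` -/
lemma sqr8 {m : ℤ} (h : m % 8 = 1) : ∃ w : ℚ_[2], w ^ 2 = m := by
  obtain ⟨w, hw⟩ := sq_res (t := ((m : ℤ) : ℤ_[2])) (by
    rw [map_intCast, cast8 h]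
    decide)
  refine ⟨w, ?_⟩
  have := congrArg (fun z : ℤ_[2] => (z : ℚ_[2])) hw
  simpa only [PadicInt.coe_pow, PadicInt.coe_intCast] using this

/-- integers congruent to one modulo three are squares in `ℚ_3` -/
lemma sqr3 {m : ℤ} (h : m % 3 = 1) : ∃ w : ℚ_[3], w ^ 2 = m := by
  have h0 : ‖((m : ℤ) : ℤ_[3]) - 1‖ < 1 := by
    have h1 := PadicInt.norm_int_lt_one_iff_dvd (p := 3) (m - 1)
    have h2 : ((3 : ℕ) : ℤ) ∣ m - 1 := by
      push_cast
      omega
    have h3 := h1.2 h2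
    push_cast at h3
    exact h3
  have hn2 : ‖(2 : ℤ_[3])‖ = 1 := by
    have h1 := PadicInt.norm_int_lt_one_iff_dvd (p := 3) 2
    have h2 := PadicInt.norm_le_one ((2 : ℤ) : ℤ_[3])
    have h3 : ¬ ‖((2 : ℤ) : ℤ_[3])‖ < 1 := fun h' => by
      have := h1.1 h'
      norm_num at this
    push Not at h3
    have := le_antisymm h2 h3
    simpa using this
  obtain ⟨z, hz, -⟩ := hensels_lemma (p := 3) (R := ℤ_[3])
    (F := Polynomial.X ^ 2 - Polynomial.C ((m : ℤ) : ℤ_[3])) (a := 1) (by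
      have e1 : (Polynomial.X ^ 2 - Polynomial.C ((m : ℤ) : ℤ_[3])).aeval (1 : ℤ_[3]) =
          -(((m : ℤ) : ℤ_[3]) - 1) := by
        simp
      have e2 : (Polynomial.X ^ 2 - Polynomial.C ((m : ℤ) : ℤ_[3])).derivative.aeval (1 : ℤ_[3]) =
          2 := by
        simp
        norm_num
      rw [e1, e2, norm_neg, hn2]
      simpa using h0)
  have h4 : z ^ 2 = ((m : ℤ) : ℤ_[3]) := by
    have : z ^ 2 - ((m : ℤ) : ℤ_[3]) = 0 := by simpa using hz
    exact sub_eq_zero.1 this
  refine ⟨z, ?_⟩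
  have := congrArg (fun z : ℤ_[3] => (z : ℚ_[3])) h4
  simpa only [PadicInt.coe_pow, PadicInt.coe_intCast] using this

/-- an odd integer which is a square in `ℚ_2` is one modulo eight -/
lemma mod8_of_sq {W : ℚ_[2]} {e : ℤ_[2]} (h : W ^ 2 = φ e) :
    ∃ y : ZMod 8, y ^ 2 = (PadicInt.toZModPow 3 e : ZMod (2 ^ 3)) := by
  obtain ⟨y, hy⟩ := root_int h
  refine ⟨PadicInt.toZModPow 3 y, ?_⟩
  rw [← map_pow, hy]

lemma mod32_of_sq {W : ℚ_[2]} {e : ℤ_[2]} (h : W ^ 2 = φ e) :
    ∃ y : ZMod 32, y ^ 2 = (PadicInt.toZModPow 5 e : ZMod (2 ^ 5)) := by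
  obtain ⟨y, hy⟩ := root_int h
  refine ⟨PadicInt.toZModPow 5 y, ?_⟩
  rw [← map_pow, hy]

lemma dv_of {d : ℤ} {r : ℤ} {N : ℕ} (h : d % N = r) : ((d : ℤ) : ZMod N) = ((r : ℤ) : ZMod N) := by
  rw [ZMod.intCast_eq_intCast_iff', ← h]
  simp

lemma dv3 {d : ℤ} {r : ℤ} (h : d % 3 = r) : ((d : ℤ) : ZMod 3) = ((r : ℤ) : ZMod 3) :=
  dv_of (N := 3) (by exact_mod_cast h)

lemma m3 {m : ℤ} (h : ((m : ℤ) : ZMod 3) = 1) : m % 3 = 1 := by
  have h1 : ((m : ℤ) : ZMod 3) = ((1 : ℤ) : ZMod 3) := by simpa using h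
  rw [ZMod.intCast_eq_intCast_iff'] at h1
  omega

/-! ### At two, `α = 1` -/

lemma z8_1 : ∀ y d : ZMod 8, y ^ 2 = d → d ^ 2 = 1 → d = 1 := by decide

lemma z8_units : ∀ d : ZMod 8, d ^ 2 = 1 → d = 1 ∨ d = 3 ∨ d = 5 ∨ d = 7 := by decide

lemma z32_u : ∀ u v : ZMod 32, u * v = 1 → u ^ 2 = 1 ∨ u ^ 2 = 9 ∨ u ^ 2 = 17 ∨ u ^ 2 = 25 := by
  decide +kernel

lemma unit_sq32 {u : ℤ_[2]} (hu : ‖u‖ = 1) : ∃ s : ZMod 32,
    (PadicInt.toZModPow 5 u : ZMod (2 ^ 5)) ^ 2 = s ∧ (s = 1 ∨ s = 9 ∨ s = 17 ∨ s = 25) := by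
  obtain ⟨v, hv⟩ := (PadicInt.isUnit_iff.2 hu).exists_right_inv
  have h1 := congrArg (PadicInt.toZModPow (p := 2) 5) hv
  rw [map_mul, map_one] at h1
  exact ⟨_, rfl, z32_u _ _ h1⟩

/-- no squares, `d = 3 mod 4` -/
lemma z32_main : ∀ ν d s y : ZMod 32, (ν = 3 ∨ ν = 11 ∨ ν = 19 ∨ ν = 27) →
    (d = 3 ∨ d = 7 ∨ d = 11 ∨ d = 15 ∨ d = 19 ∨ d = 23 ∨ d = 27 ∨ d = 31) →
    (s = 1 ∨ s = 9 ∨ s = 17 ∨ s = 25) →
    y ^ 2 ≠ d * (d ^ 2 * s ^ 2 - 2 * ν * d * s - 3 * ν ^ 2) := by
  intro ν d s y hν hd hs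
  revert y
  rcases hν with rfl | rfl | rfl | rfl <;>
  rcases hd with rfl | rfl | rfl | rfl | rfl | rfl | rfl | rfl <;>
  rcases hs with rfl | rfl | rfl | rfl <;> decide +kernel

lemma odd_of_mod {d : ℤ} (h : d % 4 = 3) : ¬ (2 : ℤ) ∣ d := by omega

/-- the sufficiency from `LQ` -/
lemma suf2 {a b d : ℤ} (hb : b ≠ 0) (hab : a ^ 2 - 4 * b ≠ 0) (hd : d ≠ 0) {e c : ℤ}
    (he : e % 8 = 1) (hc : d = e ∨ d * (a ^ 2 - 4 * b) = e * c ^ 2) : LocI ℚ_[2] a b d := by
  obtain ⟨w, hw⟩ := sqr8 he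
  refine (Pool.Agent.Z864.LQ.t_LQ a b d hb hab hd).1 2 ?_
  rcases hc with h | h
  · left
    rw [h]
    exact ⟨w, by rw [← hw, sq]⟩
  · right
    refine ⟨w * c, ?_⟩
    have h1 : ((d * (a ^ 2 - 4 * b) : ℤ) : ℚ_[2]) = ((e * c ^ 2 : ℤ) : ℚ_[2]) := by rw [h]
    push_cast at h1
    rw [h1, ← hw]
    ring

theorem t_T2B : S_T2B := by
  intro n d hn
  have hn0 : n ≠ 0 := by omega
  have hn2 : ¬ (2 : ℤ) ∣ n := by omega
  have hab : n ^ 2 - 4 * n ^ 2 ≠ 0 := by
    have h1 : n ^ 2 - 4 * n ^ 2 = -3 * n ^ 2 := by ring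
    rw [h1]
    exact mul_ne_zero (by norm_num) (pow_ne_zero 2 hn0)
  constructor
  · intro hd h
    have hn3 : ¬ (2 : ℤ) ∣ -3 * n ^ 2 := by
      intro h
      rcases Int.prime_two.dvd_mul.1 h with h | h
      · norm_num at h
      · exact hn2 (Int.prime_two.dvd_of_dvd_pow h)
    have hnz : ‖((-3 * n ^ 2 : ℤ) : ℤ_[2])‖ = 1 := norm_odd hn3
    have hnn : ((n : ℤ) : ZMod 8) ^ 2 = 1 := by
      have := unit_sq (norm_odd hn2)
      rw [map_intCast] at this
      exact this
    by_cases h2 : (2 : ℤ) ∣ d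
    · exfalso
      obtain ⟨d', rfl⟩ := h2
      have hd' : ¬ (2 : ℤ) ∣ d' := by
        rintro ⟨c, rfl⟩
        have := hd 2 ⟨c, by ring⟩
        rw [Int.isUnit_iff] at this
        omega
      have hu' := norm_odd hd'
      rcases h with ⟨s, hs⟩ | ⟨s, hs⟩ | ⟨X, Y, r, hX, hY, hXr⟩
      · refine sq_ne (W := s) hu' 0 ?_
        push_cast at hs
        simp only [map_intCast]
        linear_combination -hs
      · have h7 : ‖((d' * (-3 * n ^ 2) : ℤ) : ℤ_[2])‖ = 1 := norm_odd (by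
          intro h
          rcases (Int.prime_two.dvd_mul.1 h) with h | h
          · exact hd' h
          · exact hn3 h)
        refine sq_ne (W := s) h7 0 ?_
        push_cast at hs
        simp only [map_intCast]
        push_cast
        linear_combination -hs
      · have hr : r ≠ 0 := by
          rintro rfl
          apply hX
          rw [hXr]
          ring
        obtain ⟨k, u, hu, hru⟩ := exists_u hr
        have hW : (Y / r) ^ 2 = 2 * (d' : ℚ_[2]) * (4 * (d' : ℚ_[2]) ^ 2 * r ^ 4 -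
            4 * n * d' * r ^ 2 - 3 * n ^ 2) := by
          rw [div_pow, div_eq_iff (pow_ne_zero 2 hr), hY, hXr]
          push_cast
          ring
        set W := Y / r with hWdef
        rcases le_or_gt 0 k with hk | hk
        · obtain ⟨m, hm⟩ : ∃ m : ℕ, k = (m : ℤ) := ⟨k.toNat, by omega⟩
          have hru' : r = φ ((2 : ℤ_[2]) ^ m * u) := by
            rw [hru, hm, zpow_natCast]
            simp only [map_mul, map_pow, map_ofNat]
          set s : ℤ_[2] := (2 : ℤ_[2]) ^ m * u with hs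
          have hE : ‖((d' : ℤ) : ℤ_[2]) * (((-3 * n ^ 2 : ℤ) : ℤ_[2]) + 2 *
              (2 * (d' : ℤ_[2]) ^ 2 * s ^ 4 - 2 * (n : ℤ_[2]) * (d' : ℤ_[2]) * s ^ 2))‖ = 1 := by
            rw [norm_mul, hu', one_mul]
            exact unit_add _ hnz
          refine sq_ne (W := W) hE 0 ?_
          rw [hW, hru']
          simp only [map_mul, map_add, map_sub, map_pow, map_intCast, map_ofNat]
          push_cast
          ring
        · obtain ⟨m, hm⟩ : ∃ m : ℕ, k = -((m : ℤ) + 1) := ⟨(-k - 1).toNat, by omega⟩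
          have hru' : r * 2 ^ (m + 1) = φ u := by
            rw [hru, hm, zpow_neg]
            have : ((m : ℤ) + 1) = ((m + 1 : ℕ) : ℤ) := by push_cast; ring
            rw [this, zpow_natCast]
            field_simp
          have hu4 : ‖((d' : ℤ) : ℤ_[2]) ^ 2 * u ^ 4‖ = 1 := by
            rw [norm_mul, norm_pow, norm_pow, hu, hu']
            norm_num
          have hE : ‖((d' : ℤ) : ℤ_[2]) * (((d' : ℤ) : ℤ_[2]) ^ 2 * u ^ 4 + 2 *
              (-(2 * (n : ℤ_[2]) * (d' : ℤ_[2]) * u ^ 2 * 4 ^ m) -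
                6 * (n : ℤ_[2]) ^ 2 * 16 ^ m))‖ = 1 := by
            rw [norm_mul, hu', one_mul]
            exact unit_add _ hu4
          refine sq_ne (W := W * 4 ^ (m + 1)) hE 1 ?_
          simp only [map_mul, map_add, map_sub, map_neg, map_pow, map_intCast, map_ofNat]
          rw [mul_pow, hW, ← hru']
          have e5 : (4 : ℚ_[2]) ^ m = 2 ^ m * 2 ^ m := by
            rw [← mul_pow]; norm_num
          have e4 : ((4 : ℚ_[2]) ^ (m + 1)) ^ 2 = 16 * (2 ^ m * 2 ^ m * 2 ^ m * 2 ^ m) := by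
            have e7 : (4 : ℚ_[2]) ^ (m + 1) = 2 ^ m * 2 ^ m * 4 := by rw [pow_succ, e5]
            rw [e7]
            ring
          have e6 : (16 : ℚ_[2]) ^ m = 2 ^ m * 2 ^ m * 2 ^ m * 2 ^ m := by
            rw [← mul_pow, ← mul_pow, ← mul_pow]; norm_num
          rw [e4, e5, e6, pow_succ]
          ring
    · -- `d` odd
      have hu' := norm_odd h2
      have hdd : ((d : ℤ) : ZMod 8) ^ 2 = 1 := by
        have := unit_sq hu'
        rw [map_intCast] at this
        exact this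
      have hmod : ((d : ℤ) : ZMod 8) = 1 ∨ ((d : ℤ) : ZMod 8) = 5 → d % 4 = 1 := by
        rintro (h | h)
        · have h1 : ((d : ℤ) : ZMod 8) = ((1 : ℤ) : ZMod 8) := by simpa using h
          rw [ZMod.intCast_eq_intCast_iff'] at h1
          omega
        · have h1 : ((d : ℤ) : ZMod 8) = ((5 : ℤ) : ZMod 8) := by simpa using h
          rw [ZMod.intCast_eq_intCast_iff'] at h1
          omega
      rcases h with ⟨s, hs⟩ | ⟨s, hs⟩ | ⟨X, Y, r, hX, hY, hXr⟩
      · obtain ⟨y, hy⟩ := mod8_of_sq (W := s) (e := (d : ℤ_[2])) (by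
          rw [map_intCast, hs]; ring)
        rw [map_intCast] at hy
        exact hmod (Or.inl (z8_1 y _ hy hdd))
      · obtain ⟨y, hy⟩ := mod8_of_sq (W := s) (e := ((d * (-3 * n ^ 2) : ℤ) : ℤ_[2])) (by
          rw [map_intCast]
          push_cast at hs ⊢
          linear_combination -hs)
        rw [map_intCast] at hy
        apply hmod
        right
        have key : ∀ y d n : ZMod 8, n ^ 2 = 1 → d ^ 2 = 1 → y ^ 2 = d * (-3 * n ^ 2) → d = 5 := by
          decide +kernel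
        refine key y _ ((n : ℤ) : ZMod 8) hnn hdd ?_
        rw [hy]
        push_cast
        ring
      · have hr : r ≠ 0 := by
          rintro rfl
          apply hX
          rw [hXr]
          ring
        obtain ⟨k, u, hu, hru⟩ := exists_u hr
        have hW : (Y / r) ^ 2 = (d : ℚ_[2]) * ((d : ℚ_[2]) ^ 2 * r ^ 4 -
            2 * n * d * r ^ 2 - 3 * n ^ 2) := by
          rw [div_pow, div_eq_iff (pow_ne_zero 2 hr), hY, hXr]
          push_cast
          ring
        set W := Y / r with hWdef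
        rcases lt_trichotomy k 0 with hk | hk | hk
        · -- negative
          obtain ⟨m, hm⟩ : ∃ m : ℕ, k = -((m : ℤ) + 1) := ⟨(-k - 1).toNat, by omega⟩
          have hru' : r * 2 ^ (m + 1) = φ u := by
            rw [hru, hm, zpow_neg]
            have : ((m : ℤ) + 1) = ((m + 1 : ℕ) : ℤ) := by push_cast; ring
            rw [this, zpow_natCast]
            field_simp
          obtain ⟨y, hy⟩ := mod8_of_sq (W := W * 4 ^ (m + 1)) (e := ((d : ℤ) : ℤ_[2]) *
              (((d : ℤ) : ℤ_[2]) ^ 2 * u ^ 4 + 8 *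
              (-((n : ℤ_[2]) * (d : ℤ_[2]) * u ^ 2 * 4 ^ m) - 6 * (n : ℤ_[2]) ^ 2 * 16 ^ m))) (by
            simp only [map_mul, map_add, map_sub, map_neg, map_pow, map_intCast, map_ofNat]
            rw [mul_pow, hW, ← hru']
            have e5 : (4 : ℚ_[2]) ^ m = 2 ^ m * 2 ^ m := by
              rw [← mul_pow]; norm_num
            have e4 : ((4 : ℚ_[2]) ^ (m + 1)) ^ 2 = 16 * (2 ^ m * 2 ^ m * 2 ^ m * 2 ^ m) := by
              have e7 : (4 : ℚ_[2]) ^ (m + 1) = 2 ^ m * 2 ^ m * 4 := by rw [pow_succ, e5]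
              rw [e7]
              ring
            have e6 : (16 : ℚ_[2]) ^ m = 2 ^ m * 2 ^ m * 2 ^ m * 2 ^ m := by
              rw [← mul_pow, ← mul_pow, ← mul_pow]; norm_num
            rw [e4, e5, e6, pow_succ]
            ring)
          simp only [map_mul, map_add, map_sub, map_neg, map_pow, map_intCast, map_ofNat] at hy
          have hus := unit_sq hu
          have h8 : (8 : ZMod (2 ^ 3)) = 0 := by decide
          rw [h8, zero_mul, add_zero] at hy
          apply hmod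
          left
          have key : ∀ y d v : ZMod 8, v ^ 2 = 1 → d ^ 2 = 1 → y ^ 2 = d * (d ^ 2 * v ^ 4) →
              d = 1 := by
            decide +kernel
          exact key y _ _ hus hdd hy
        · -- zero
          have hru' : r = φ u := by rw [hru, hk, zpow_zero, one_mul]
          obtain ⟨y, hy⟩ := mod32_of_sq (W := W) (e := ((d : ℤ) : ℤ_[2]) *
              (((d : ℤ) : ℤ_[2]) ^ 2 * u ^ 4 - 2 * (n : ℤ_[2]) * (d : ℤ_[2]) * u ^ 2 -
                3 * (n : ℤ_[2]) ^ 2)) (by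
            simp only [map_mul, map_add, map_sub, map_neg, map_pow, map_intCast, map_ofNat]
            rw [hW, ← hru'])
          simp only [map_mul, map_add, map_sub, map_neg, map_pow, map_intCast, map_ofNat] at hy
          obtain ⟨s, hs, hs'⟩ := unit_sq32 hu
          have h4 : (PadicInt.toZModPow 5 u : ZMod (2 ^ 5)) ^ 4 = s ^ 2 := by
            rw [← hs]; ring
          rw [h4, hs] at hy
          by_contra hcon
          have hd3 : d % 32 = 3 ∨ d % 32 = 7 ∨ d % 32 = 11 ∨ d % 32 = 15 ∨ d % 32 = 19 ∨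
              d % 32 = 23 ∨ d % 32 = 27 ∨ d % 32 = 31 := by omega
          have hn3' : n % 32 = 3 ∨ n % 32 = 11 ∨ n % 32 = 19 ∨ n % 32 = 27 := by omega
          have hν : ((n : ℤ) : ZMod 32) = 3 ∨ ((n : ℤ) : ZMod 32) = 11 ∨
              ((n : ℤ) : ZMod 32) = 19 ∨ ((n : ℤ) : ZMod 32) = 27 := by
            rcases hn3' with h | h | h | h
            · exact Or.inl (dv_of (N := 32) h)
            · exact Or.inr (Or.inl (dv_of (N := 32) h))
            · exact Or.inr (Or.inr (Or.inl (dv_of (N := 32) h)))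
            · exact Or.inr (Or.inr (Or.inr (dv_of (N := 32) h)))
          have hδ : ((d : ℤ) : ZMod 32) = 3 ∨ ((d : ℤ) : ZMod 32) = 7 ∨
              ((d : ℤ) : ZMod 32) = 11 ∨ ((d : ℤ) : ZMod 32) = 15 ∨
              ((d : ℤ) : ZMod 32) = 19 ∨ ((d : ℤ) : ZMod 32) = 23 ∨
              ((d : ℤ) : ZMod 32) = 27 ∨ ((d : ℤ) : ZMod 32) = 31 := by
            rcases hd3 with h | h | h | h | h | h | h | h
            · exact Or.inl (dv_of (N := 32) h)
            · exact Or.inr (Or.inl (dv_of (N := 32) h))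
            · exact Or.inr (Or.inr (Or.inl (dv_of (N := 32) h)))
            · exact Or.inr (Or.inr (Or.inr (Or.inl (dv_of (N := 32) h))))
            · exact Or.inr (Or.inr (Or.inr (Or.inr (Or.inl (dv_of (N := 32) h)))))
            · exact Or.inr (Or.inr (Or.inr (Or.inr (Or.inr (Or.inl (dv_of (N := 32) h))))))
            · exact Or.inr (Or.inr (Or.inr (Or.inr (Or.inr (Or.inr (Or.inl
                (dv_of (N := 32) h)))))))
            · exact Or.inr (Or.inr (Or.inr (Or.inr (Or.inr (Or.inr (Or.inr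
                (dv_of (N := 32) h)))))))
          exact z32_main _ _ s y hν hδ hs' hy
        · -- positive
          obtain ⟨m, hm⟩ : ∃ m : ℕ, k = (m : ℤ) + 1 := ⟨(k - 1).toNat, by omega⟩
          have hru' : r = 2 * φ ((2 : ℤ_[2]) ^ m * u) := by
            rw [hru, hm, zpow_add₀ two_ne_zero, zpow_natCast, zpow_one]
            simp only [map_mul, map_pow, map_ofNat]
            ring
          obtain ⟨y, hy⟩ := mod8_of_sq (W := W) (e := ((d : ℤ) : ℤ_[2]) *
              (((-3 * n ^ 2 : ℤ) : ℤ_[2]) + 8 * (2 * ((d : ℤ) : ℤ_[2]) ^ 2 *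
                ((2 : ℤ_[2]) ^ m * u) ^ 4 -
              (n : ℤ_[2]) * (d : ℤ_[2]) * ((2 : ℤ_[2]) ^ m * u) ^ 2))) (by
            rw [hW, hru']
            generalize (2 : ℤ_[2]) ^ m * u = s
            simp only [map_mul, map_add, map_sub, map_neg, map_pow, map_intCast, map_ofNat]
            push_cast
            ring)
          rw [map_mul, map_add, map_mul] at hy
          have h8 : PadicInt.toZModPow (p := 2) 3 8 = 0 := by
            rw [map_ofNat]; decide
          rw [h8, zero_mul, add_zero, map_intCast, map_intCast] at hy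
          apply hmod
          right
          have key : ∀ y d n : ZMod 8, n ^ 2 = 1 → d ^ 2 = 1 → y ^ 2 = d * (-3 * n ^ 2) →
              d = 5 := by
            decide +kernel
          refine key y _ ((n : ℤ) : ZMod 8) hnn hdd ?_
          rw [hy]
          push_cast
          ring
  · intro h4
    have hd0 : d ≠ 0 := by omega
    rcases (by omega : d % 8 = 1 ∨ d % 8 = 5) with h8 | h8
    · exact suf2 (pow_ne_zero 2 hn0) hab hd0 h8 (c := 1) (Or.inl rfl)
    · exact suf2 (e := -3 * d) (c := n) (pow_ne_zero 2 hn0) hab hd0 (by omega)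
        (Or.inr (by ring))

/-! ### At two, `α = -14` -/

theorem t_T2C : S_T2C := by
  intro n d hn
  have hn0 : n ≠ 0 := by omega
  have hn2 : ¬ (2 : ℤ) ∣ n := by omega
  have hab : (-14 * n) ^ 2 - 4 * n ^ 2 ≠ 0 := by
    have h1 : (-14 * n) ^ 2 - 4 * n ^ 2 = 192 * n ^ 2 := by ring
    rw [h1]
    exact mul_ne_zero (by norm_num) (pow_ne_zero 2 hn0)
  constructor
  · rintro hd h ⟨d', rfl⟩
    have hd' : ¬ (2 : ℤ) ∣ d' := by
      rintro ⟨c, rfl⟩
      have := hd 2 ⟨c, by ring⟩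
      rw [Int.isUnit_iff] at this
      omega
    have hu' := norm_odd hd'
    have hn3 : ¬ (2 : ℤ) ∣ 3 * n ^ 2 := by
      intro h
      rcases Int.prime_two.dvd_mul.1 h with h | h
      · norm_num at h
      · exact hn2 (Int.prime_two.dvd_of_dvd_pow h)
    have hnz : ‖((3 * n ^ 2 : ℤ) : ℤ_[2])‖ = 1 := norm_odd hn3
    rcases h with ⟨s, hs⟩ | ⟨s, hs⟩ | ⟨X, Y, r, hX, hY, hXr⟩
    · refine sq_ne (W := s) hu' 0 ?_
      push_cast at hs
      simp only [map_intCast]
      linear_combination -hs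
    · have h7 : ‖((d' * (3 * n ^ 2) : ℤ) : ℤ_[2])‖ = 1 := norm_odd (by
        intro h
        rcases (Int.prime_two.dvd_mul.1 h) with h | h
        · exact hd' h
        · exact hn3 h)
      refine sq_ne (W := s) h7 3 ?_
      push_cast at hs
      simp only [map_intCast]
      push_cast
      linear_combination -hs
    · have hr : r ≠ 0 := by
        rintro rfl
        apply hX
        rw [hXr]
        ring
      obtain ⟨k, u, hu, hru⟩ := exists_u hr
      have hW : (Y / r) ^ 2 = 8 * (d' : ℚ_[2]) * ((d' : ℚ_[2]) ^ 2 * r ^ 4 +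
          14 * n * d' * r ^ 2 + 48 * n ^ 2) := by
        rw [div_pow, div_eq_iff (pow_ne_zero 2 hr), hY, hXr]
        push_cast
        ring
      set W := Y / r with hWdef
      rcases le_or_gt k 0 with hk | hk
      · obtain ⟨m, hm⟩ : ∃ m : ℕ, k = -(m : ℤ) := ⟨k.natAbs, by omega⟩
        have hru' : r * 2 ^ m = φ u := by
          rw [hru, hm, zpow_neg, zpow_natCast]
          field_simp
        have hu4 : ‖((d' : ℤ) : ℤ_[2]) ^ 2 * u ^ 4‖ = 1 := by
          rw [norm_mul, norm_pow, norm_pow, hu, hu']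
          norm_num
        have hE : ‖((d' : ℤ) : ℤ_[2]) * (((d' : ℤ) : ℤ_[2]) ^ 2 * u ^ 4 + 2 *
            (7 * (n : ℤ_[2]) * (d' : ℤ_[2]) * u ^ 2 * 4 ^ m + 24 * (n : ℤ_[2]) ^ 2 * 16 ^ m))‖ =
            1 := by
          rw [norm_mul, hu', one_mul]
          exact unit_add _ hu4
        refine sq_ne (W := W * 4 ^ m) hE 1 ?_
        simp only [map_mul, map_add, map_pow, map_intCast, map_ofNat]
        rw [mul_pow, hW, ← hru']
        have e5 : (4 : ℚ_[2]) ^ m = 2 ^ m * 2 ^ m := by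
          rw [← mul_pow]; norm_num
        have e6 : (16 : ℚ_[2]) ^ m = 2 ^ m * 2 ^ m * 2 ^ m * 2 ^ m := by
          rw [← mul_pow, ← mul_pow, ← mul_pow]; norm_num
        rw [e5, e6]
        ring
      rcases eq_or_ne k 1 with hk1 | hk1
      · have hru' : r = 2 * φ u := by rw [hru, hk1, zpow_one]
        obtain ⟨y, hy⟩ := mod8_of_sq (W := W / 8) (e := (d' : ℤ_[2]) * (2 * (d' : ℤ_[2]) ^ 2 *
          u ^ 4 + 7 * (n : ℤ_[2]) * (d' : ℤ_[2]) * u ^ 2 + 6 * (n : ℤ_[2]) ^ 2)) (by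
            rw [div_pow, hW, hru']
            simp only [map_mul, map_add, map_pow, map_intCast, map_ofNat]
            ring)
        simp only [map_mul, map_add, map_pow, map_intCast, map_ofNat] at hy
        have hus := unit_sq hu
        have hdd : ((d' : ℤ) : ZMod 8) ^ 2 = 1 := by
          have := unit_sq hu'
          rw [map_intCast] at this
          exact this
        have hν : ((n : ℤ) : ZMod 8) = 3 := dv_of (N := 8) hn
        have key : ∀ y d v : ZMod 8, v ^ 2 = 1 → d ^ 2 = 1 →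
            y ^ 2 ≠ d * (2 * d ^ 2 * v ^ 4 + 7 * 3 * d * v ^ 2 + 6 * 3 ^ 2) := by
          decide +kernel
        have hy' : y ^ 2 = ((d' : ℤ) : ZMod 8) * (2 * ((d' : ℤ) : ZMod 8) ^ 2 *
            (PadicInt.toZModPow 3 u : ZMod (2 ^ 3)) ^ 4 + 7 * ((n : ℤ) : ZMod 8) *
            ((d' : ℤ) : ZMod 8) * (PadicInt.toZModPow 3 u : ZMod (2 ^ 3)) ^ 2 +
            6 * ((n : ℤ) : ZMod 8) ^ 2) := hy
        rw [hν] at hy'
        exact key y _ _ hus hdd hy'
      · obtain ⟨m, hm⟩ : ∃ m : ℕ, k = (m : ℤ) + 2 := ⟨(k - 2).toNat, by omega⟩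
        have hru' : r = 4 * φ ((2 : ℤ_[2]) ^ m * u) := by
          rw [hru, hm, zpow_add₀ (two_ne_zero)]
          simp only [map_mul, map_add, map_pow, map_intCast, map_ofNat]
          norm_num
          ring
        set s : ℤ_[2] := (2 : ℤ_[2]) ^ m * u with hs
        have hE : ‖((d' : ℤ) : ℤ_[2]) * (((3 * n ^ 2 : ℤ) : ℤ_[2]) + 2 *
            (8 * (d' : ℤ_[2]) ^ 2 * s ^ 4 + 7 * (n : ℤ_[2]) * (d' : ℤ_[2]) * s ^ 2))‖ = 1 := by
          rw [norm_mul, hu', one_mul]
          exact unit_add _ hnz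
        refine sq_ne (W := W) hE 3 ?_
        rw [hW, hru']
        simp only [map_mul, map_add, map_pow, map_intCast, map_ofNat]
        push_cast
        ring
  · intro h2
    have hd0 : d ≠ 0 := by rintro rfl; exact h2 (dvd_zero _)
    have hdQ : (d : ℚ_[2]) ≠ 0 := by exact_mod_cast hd0
    have hnQ : (n : ℚ_[2]) ≠ 0 := by exact_mod_cast hn0
    have hb : n ^ 2 ≠ 0 := pow_ne_zero 2 hn0
    rcases (by omega : d % 8 = 1 ∨ d % 8 = 3 ∨ d % 8 = 5 ∨ d % 8 = 7) with h8 | h8 | h8 | h8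
    · exact suf2 hb hab hd0 h8 (c := 1) (Or.inl rfl)
    · exact suf2 (e := 3 * d) (c := 8 * n) hb hab hd0 (by omega) (Or.inr (by ring))
    · have hm : (-n * d) % 8 = 1 := by
        obtain ⟨a, ha⟩ : ∃ a, n = 8 * a + 3 := ⟨n / 8, by omega⟩
        obtain ⟨b, hb'⟩ : ∃ b, d = 8 * b + 5 := ⟨d / 8, by omega⟩
        rw [ha, hb']
        have : -(8 * a + 3) * (8 * b + 5) = 8 * (-(8 * a * b) - 5 * a - 3 * b - 2) + 1 := by ring
        omega
      obtain ⟨w, hw⟩ := sqr8 hm
      push_cast at hw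
      refine ⟨-16 * n, 0, 4 * w / d, mul_ne_zero (by norm_num) hnQ, ?_, ?_⟩
      · push_cast
        ring
      · field_simp
        linear_combination (-16) * hw
    · have hm : (-3 * n * d) % 8 = 1 := by
        obtain ⟨a, ha⟩ : ∃ a, n = 8 * a + 3 := ⟨n / 8, by omega⟩
        obtain ⟨b, hb'⟩ : ∃ b, d = 8 * b + 7 := ⟨d / 8, by omega⟩
        rw [ha, hb']
        have : -3 * (8 * a + 3) * (8 * b + 7) = 8 * (-(24 * a * b) - 21 * a - 9 * b - 8) + 1 := by
          ring
        omega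
      obtain ⟨w, hw⟩ := sqr8 hm
      push_cast at hw
      refine ⟨-12 * n, 0, 2 * w / d, mul_ne_zero (by norm_num) hnQ, ?_, ?_⟩
      · push_cast
        ring
      · field_simp
        linear_combination (-4) * hw

/-! ### At three and at the real place -/

lemma suf3 {a b d : ℤ} (hb : b ≠ 0) (hab : a ^ 2 - 4 * b ≠ 0) (hd : d ≠ 0) {e c : ℤ}
    (he : e % 3 = 1) (hc : d = e ∨ d * (a ^ 2 - 4 * b) = e * c ^ 2) : LocI ℚ_[3] a b d := by
  obtain ⟨w, hw⟩ := sqr3 he
  refine (Pool.Agent.Z864.LQ.t_LQ a b d hb hab hd).1 3 ?_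
  rcases hc with h | h
  · left
    rw [h]
    exact ⟨w, by rw [← hw, sq]⟩
  · right
    refine ⟨w * c, ?_⟩
    have h1 : ((d * (a ^ 2 - 4 * b) : ℤ) : ℚ_[3]) = ((e * c ^ 2 : ℤ) : ℚ_[3]) := by rw [h]
    push_cast at h1
    rw [h1, ← hw]
    ring

theorem t_T3 : S_T3 := by
  intro n d hn hn0' hd
  have hn0 : n ≠ 0 := by omega
  have hb : n ^ 2 ≠ 0 := pow_ne_zero 2 hn0
  have hab : n ^ 2 - 4 * n ^ 2 ≠ 0 := by
    have h1 : n ^ 2 - 4 * n ^ 2 = -3 * n ^ 2 := by ring
    rw [h1]
    exact mul_ne_zero (by norm_num) hb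
  have hab' : (-14 * n) ^ 2 - 4 * n ^ 2 ≠ 0 := by
    have h1 : (-14 * n) ^ 2 - 4 * n ^ 2 = 192 * n ^ 2 := by ring
    rw [h1]
    exact mul_ne_zero (by norm_num) hb
  have hd0 : d ≠ 0 := hd.ne_zero
  have hdQ : (d : ℚ_[3]) ≠ 0 := by exact_mod_cast hd0
  have hnQ : (n : ℚ_[3]) ≠ 0 := by exact_mod_cast hn0
  obtain ⟨a, ha⟩ : ∃ a, n = 3 * a + 2 := ⟨n / 3, by omega⟩
  have h3 : d % 3 = 1 ∨ d % 3 = 2 ∨ ∃ d', d = 3 * d' ∧ (d' % 3 = 1 ∨ d' % 3 = 2) := by
    rcases (by omega : d % 3 = 1 ∨ d % 3 = 2 ∨ d % 3 = 0) with h | h | h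
    · exact Or.inl h
    · exact Or.inr (Or.inl h)
    · refine Or.inr (Or.inr ⟨d / 3, by omega, ?_⟩)
      by_contra hcon
      have h4 : d = 3 * 3 * (d / 3 / 3) := by omega
      have := hd 3 ⟨_, h4⟩
      rw [Int.isUnit_iff] at this
      omega
  refine ⟨?_, ?_, ?_, ?_⟩
  · rcases h3 with h | h | ⟨d', rfl, h | h⟩
    · exact suf3 hb hab hd0 h (c := 1) (Or.inl rfl)
    · obtain ⟨w, hw⟩ := sqr3 (m := d * (d - 3 * n) * (d + n)) (by
        apply m3
        have h1 : ((n : ℤ) : ZMod 3) = 2 := dv3 (r := 2) (by omega)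
        have h2 : ((d : ℤ) : ZMod 3) = 2 := dv3 (r := 2) (by omega)
        push_cast
        rw [h1, h2]
        decide)
      push_cast at hw
      refine ⟨d, w, 1, hdQ, ?_, by ring⟩
      rw [hw]
      push_cast
      ring
    · have hd'0 : d' ≠ 0 := by rintro rfl; omega
      have hd'Q : (d' : ℚ_[3]) ≠ 0 := by exact_mod_cast hd'0
      obtain ⟨w, hw⟩ := sqr3 (m := (n - d') * (3 * n + d') * d') (by
        apply m3
        have h1 : ((n : ℤ) : ZMod 3) = 2 := dv3 (r := 2) (by omega)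
        have h2 : ((d' : ℤ) : ZMod 3) = 1 := by
          simpa using dv3 (d := d') (r := 1) (by omega)
        push_cast
        rw [h1, h2]
        decide)
      push_cast at hw
      refine ⟨3 * n ^ 2 / d', 3 * n ^ 2 * w / d' ^ 2, n / d', ?_, ?_, ?_⟩
      · exact div_ne_zero (mul_ne_zero (by norm_num) (pow_ne_zero 2 hnQ)) hd'Q
      · rw [div_pow, mul_pow, hw]
        push_cast
        field_simp
        ring
      · push_cast
        field_simp
    · exact suf3 (e := -d') (c := 3 * n) hb hab hd0 (by omega) (Or.inr (by ring))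
  · rcases h3 with h | h | ⟨d', rfl, h | h⟩
    · exact suf3 hb hab' hd0 h (c := 1) (Or.inl rfl)
    · obtain ⟨w, hw⟩ := sqr3 (m := d * (d + 12 * n) * (d + 16 * n)) (by
        apply m3
        have h1 : ((n : ℤ) : ZMod 3) = 2 := dv3 (r := 2) (by omega)
        have h2 : ((d : ℤ) : ZMod 3) = 2 := dv3 (r := 2) (by omega)
        push_cast
        rw [h1, h2]
        decide)
      push_cast at hw
      refine ⟨d, w, 1, hdQ, ?_, by ring⟩
      rw [hw]
      push_cast
      ring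
    · exact suf3 (e := d') (c := 24 * n) hb hab' hd0 h (Or.inr (by ring))
    · have hd'0 : d' ≠ 0 := by rintro rfl; omega
      have hd'Q : (d' : ℚ_[3]) ≠ 0 := by exact_mod_cast hd'0
      obtain ⟨w, hw⟩ := sqr3 (m := (16 * n + d') * (12 * n + d') * d') (by
        apply m3
        have h1 : ((n : ℤ) : ZMod 3) = 2 := dv3 (r := 2) (by omega)
        have h2 : ((d' : ℤ) : ZMod 3) = 2 := dv3 (r := 2) (by omega)
        push_cast
        rw [h1, h2]
        decide)
      push_cast at hw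
      refine ⟨192 * n ^ 2 / d', 192 * n ^ 2 * w / d' ^ 2, 8 * n / d', ?_, ?_, ?_⟩
      · exact div_ne_zero (mul_ne_zero (by norm_num) (pow_ne_zero 2 hnQ)) hd'Q
      · rw [div_pow, mul_pow, hw]
        push_cast
        field_simp
        ring
      · push_cast
        field_simp
        ring
  · rcases lt_or_gt_of_ne hd0 with h | h
    · have hdR : (d : ℝ) < 0 := by exact_mod_cast h
      have hnR : (0 : ℝ) < n := by exact_mod_cast hn0'
      refine ⟨-n, 0, Real.sqrt (n / (-d)), by linarith, ?_, ?_⟩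
      · push_cast
        ring
      · rw [Real.sq_sqrt (by
          have : (0 : ℝ) < -d := by linarith
          positivity)]
        field_simp
    · exact (Pool.Agent.Z864.LQ.t_LQ _ _ d hb hab hd0).2 h
  · rcases lt_or_gt_of_ne hd0 with h | h
    · have hdR : (d : ℝ) < 0 := by exact_mod_cast h
      have hnR : (0 : ℝ) < n := by exact_mod_cast hn0'
      refine ⟨-(12 * n), 0, Real.sqrt (12 * n / (-d)), by linarith, ?_, ?_⟩
      · push_cast
        ring
      · rw [Real.sq_sqrt (by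
          have : (0 : ℝ) < -d := by linarith
          positivity)]
        field_simp
    · exact (Pool.Agent.Z864.LQ.t_LQ _ _ d hb hab' hd0).2 h

end Pool.Agent.N216.SN
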