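import Pool.Agent.N659.HB.Stm10
import Pool.Agent.N123.SD.N1

/-!
# Project SN, part N1U: the averaged resolvent is close to the transform of the law, general law

Adapted from Pool/Agent/N123/SD/N1.lean (helper123).
-/

set_option autoImplicit false
set_option linter.unusedSectionVars false
set_option linter.unusedVariables false

namespace Pool.Agent.N216.SN

open MeasureTheory Filter Pool.Agent.W792.LL Pool.Agent.W792.WA Pool.Agent.N659.HB
open Pool.Agent.N123.SD (Res growth fv inner_fv norm_le_of_fv xs_im opr_xs res_id lc lc_norm xs_lc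
  xs_zero res_line gr_zero res_meas res_bd)
open scoped Topology ENNReal

noncomputable section

section Op

variable {d : ℕ} {w : ℝ} {μ : Measure ℝ}

lemma res_int (hG : S_GR) (hw : 0 < w) [IsProbabilityMeasure μ] (γ : ℝ) (ζ : ℂ)
    (hζ : 0 < ζ.im) (s : Finset (Fin d → ℤ)) (c : (Fin d → ℤ) → ℂ) (u : l2 (Fin d → ℤ)) :
    Integrable (fun v => (inner ℂ (fv s c) (gr w (xs d γ ζ) v u) : ℂ))
      (Pn μ (Fin d → ℤ)) :=
  Integrable.of_bound (res_meas hG hw γ ζ hζ s c u).aestronglyMeasurable _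
    (Eventually.of_forall fun v => (res_bd hG hw γ ζ hζ (fv s c) u v).2)

/-- the transform as an integral over the product space -/
lemma int_site (hw : 0 < w) [IsProbabilityMeasure μ] (hsp : ∀ᵐ x ∂μ, |x| ≤ w) (ζ : ℂ)
    (hζ : 0 < ζ.im) (x : Fin d → ℤ) :
    ∫ v, (1 / (((max (-w) (min w (v x)) : ℝ) : ℂ) - ζ)) ∂(Pn μ (Fin d → ℤ)) = hm μ ζ := by
  have hg : Measurable fun t : ℝ => (1 / (((max (-w) (min w t) : ℝ) : ℂ) - ζ)) := by
    have h1 : Measurable fun t : ℝ => ((max (-w) (min w t) : ℝ) : ℂ) :=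
      Complex.measurable_ofReal.comp (measurable_const.max (measurable_const.min measurable_id))
    exact (h1.sub_const ζ).const_div 1
  have hmp := measurePreserving_eval_infinitePi (fun _ : Fin d → ℤ => μ) x
  have h1 : ∫ v, (1 / (((max (-w) (min w (v x)) : ℝ) : ℂ) - ζ)) ∂(Pn μ (Fin d → ℤ)) =
      ∫ t, (1 / (((max (-w) (min w t) : ℝ) : ℂ) - ζ)) ∂μ := by
    have h2 := integral_map (μ := Measure.infinitePi fun _ : Fin d → ℤ => μ)
      hmp.measurable.aemeasurable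
      (f := fun t : ℝ => (1 / (((max (-w) (min w t) : ℝ) : ℂ) - ζ))) hg.aestronglyMeasurable
    rw [hmp.map_eq] at h2
    exact h2.symm
  rw [h1, hm]
  refine integral_congr_ae ?_
  have h2 : ∀ᵐ t ∂μ, t ∈ Set.Icc (-w) w := by
    filter_upwards [hsp] with t ht
    exact abs_le.1 ht
  filter_upwards [h2] with t ht
  rw [min_eq_right ht.2, max_eq_right ht.1]

lemma int_gr_zero (hG : S_GR) (hO : S_OPR) (hD : S_DIA) (hw : 0 < w)
    [IsProbabilityMeasure μ] (hsp : ∀ᵐ x ∂μ, |x| ≤ w) (ζ : ℂ) (hζ : 0 < ζ.im) (s : Finset (Fin d → ℤ))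
    (c : (Fin d → ℤ) → ℂ) (u : l2 (Fin d → ℤ)) :
    ∫ v, (inner ℂ (fv s c) (gr w (xs d 0 ζ) v u) : ℂ) ∂(Pn μ (Fin d → ℤ)) =
      hm μ ζ * inner ℂ (fv s c) u := by
  have hgm : ∀ i : Fin d → ℤ, Measurable fun v : (Fin d → ℤ) → ℝ =>
      (1 / (((max (-w) (min w (v i)) : ℝ) : ℂ) - ζ)) := by
    intro i
    have h1 : Measurable fun v : (Fin d → ℤ) → ℝ => ((max (-w) (min w (v i)) : ℝ) : ℂ) :=
      Complex.measurable_ofReal.comp
        (measurable_const.max (measurable_const.min (measurable_pi_apply i)))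
    exact (h1.sub_const ζ).const_div 1
  have hgi : ∀ i : Fin d → ℤ, Integrable (fun v : (Fin d → ℤ) → ℝ =>
      (1 / (((max (-w) (min w (v i)) : ℝ) : ℂ) - ζ))) (Pn μ (Fin d → ℤ)) := by
    intro i
    refine Integrable.of_bound (hgm i).aestronglyMeasurable (1 / ζ.im)
      (Eventually.of_forall fun v => ?_)
    rw [norm_div, norm_one]
    refine one_div_le_one_div_of_le hζ ?_
    have h1 := Complex.abs_im_le_norm ((((max (-w) (min w (v i)) : ℝ) : ℂ) - ζ))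
    rw [Complex.sub_im, Complex.ofReal_im, zero_sub, abs_neg, abs_of_pos hζ] at h1
    exact h1
  have h1 : ∀ v, (inner ℂ (fv s c) (gr w (xs d 0 ζ) v u) : ℂ) =
      ∑ i ∈ s, ((starRingEnd ℂ) (c i) * u i) *
        (1 / (((max (-w) (min w (v i)) : ℝ) : ℂ) - ζ)) := by
    intro v
    rw [inner_fv]
    refine Finset.sum_congr rfl fun i _ => ?_
    rw [gr_zero hG hO hD hw ζ hζ v u i, mul_assoc]
  simp only [h1]
  rw [integral_finsetSum _ fun i _ => (hgi i).const_mul _, inner_fv, Finset.mul_sum]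
  refine Finset.sum_congr rfl fun i _ => ?_
  rw [integral_const_mul, int_site hw hsp ζ hζ i]
  ring

lemma est_far (hG : S_GR) (hO : S_OPR) (hD : S_DIA) (hw : 0 < w)
    [IsProbabilityMeasure μ] (hsp : ∀ᵐ x ∂μ, |x| ≤ w) (γ : ℝ) (hγ : 0 ≤ γ) (ζ : ℂ) (hζ : 0 < ζ.im)
    (s : Finset (Fin d → ℤ)) (c : (Fin d → ℤ) → ℂ) (u : l2 (Fin d → ℤ)) :
    ‖(∫ v, (inner ℂ (fv s c) (gr w (xs d γ ζ) v u) : ℂ) ∂(Pn μ (Fin d → ℤ))) -
      hm μ ζ * inner ℂ (fv s c) u‖ ≤ 4 * d * γ / ζ.im ^ 2 * (‖fv s c‖ * ‖u‖) := by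
  rw [← int_gr_zero hG hO hD hw hsp ζ hζ s c u,
    ← integral_sub (res_int hG hw γ ζ hζ s c u) (res_int hG hw 0 ζ hζ s c u)]
  have h1 : ∀ v, ‖(inner ℂ (fv s c) (gr w (xs d γ ζ) v u) : ℂ) -
      inner ℂ (fv s c) (gr w (xs d 0 ζ) v u)‖ ≤ 4 * d * γ / ζ.im ^ 2 * (‖fv s c‖ * ‖u‖) := by
    intro v
    have h2 := ((hG d w ζ.im (xs d γ ζ) hw.le hζ (fun k => xs_im γ _ k)).1 v)
    have h3 := ((hG d w ζ.im (xs d 0 ζ) hw.le hζ (fun k => xs_im 0 _ k)).1 v)
    have h4 := res_id _ _ _ _ h3.1 h2.2.1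
    have h5 : vcl w v + opr (xs d 0 ζ) - (vcl w v + opr (xs d γ ζ)) = -opr (lc d γ) := by
      have h6 := (hO d (xs d 0 ζ) (lc d γ)).2.2.2.1
      rw [xs_lc γ ζ, h6]
      abel
    rw [h5] at h4
    have h7 : ‖gr w (xs d γ ζ) v - gr w (xs d 0 ζ) v‖ ≤ 1 / ζ.im * (4 * d * γ) * (1 / ζ.im) := by
      rw [h4]
      refine (norm_mul_le _ _).trans ?_
      refine mul_le_mul ?_ h3.2.2 (norm_nonneg _) (by positivity)
      refine (norm_mul_le _ _).trans ?_
      refine mul_le_mul h2.2.2 ?_ (norm_nonneg _) (by positivity)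
      rw [norm_neg]
      exact ((hO d (lc d γ) 1).2.1).trans (lc_norm γ hγ)
    rw [← inner_sub_right, ← sub_apply]
    refine (norm_inner_le_norm _ _).trans ?_
    have h8 : ‖(gr w (xs d γ ζ) v - gr w (xs d 0 ζ) v) u‖ ≤
        1 / ζ.im * (4 * d * γ) * (1 / ζ.im) * ‖u‖ :=
      (ContinuousLinearMap.le_opNorm _ _).trans (mul_le_mul_of_nonneg_right h7 (norm_nonneg _))
    calc ‖fv s c‖ * ‖(gr w (xs d γ ζ) v - gr w (xs d 0 ζ) v) u‖ ≤
        ‖fv s c‖ * (1 / ζ.im * (4 * d * γ) * (1 / ζ.im) * ‖u‖) :=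
          mul_le_mul_of_nonneg_left h8 (norm_nonneg _)
      _ = _ := by
          field_simp
  have h2 := norm_integral_le_of_norm_le_const (μ := Pn μ (Fin d → ℤ))
    (Eventually.of_forall h1)
  rwa [probReal_univ, mul_one] at h2

end Op

theorem main : S_GR → S_DIA → S_OPR → S_SYMB → S_OGU → S_N1U := by
  intro hG hD hO hS hOG d A C0 c0
  obtain ⟨C1, g1, hC1, hg1, hO1⟩ := hOG d A C0 c0
  obtain ⟨C2, hC2e⟩ : ∃ C2 : ℝ, C2 = max C0 1 := ⟨_, rfl⟩
  have hC2 : 1 ≤ C2 := by rw [hC2e]; exact le_max_right _ _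
  have hC20 : C0 ≤ C2 := by rw [hC2e]; exact le_max_left _ _
  refine ⟨4 * C1 + 4 * d + C2, min g1 1, ?_, lt_min hg1 one_pos, ?_⟩
  · have : (0 : ℝ) ≤ d := Nat.cast_nonneg d
    linarith
  intro μ _ w y₀ hUL γ hγ0 hγ1 ζ hre hy0 him2 N hN k
  have hw : 0 < w := by have := hUL.hw; have := hUL.hA; linarith
  have hsp := hUL.supp
  have him : 0 < ζ.im := hUL.hy.trans_le hy0
  have hy0' := hy0
  obtain ⟨g, hg⟩ : ∃ g : ℝ, g = γ ^ (1 / 12 : ℝ) := ⟨_, rfl⟩
  have hgp : 0 < g := by rw [hg]; exact Real.rpow_pos_of_pos hγ0 _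
  have hγg : γ = g ^ 12 := by
    rw [hg, ← Real.rpow_natCast, ← Real.rpow_mul hγ0.le]
    norm_num
  have hg1' : g ≤ 1 := by
    rw [hg]
    exact Real.rpow_le_one hγ0.le (hγ1.trans (min_le_right _ _)) (by norm_num)
  have hg4 : g ^ 4 ≤ g := by
    calc g ^ 4 = g ^ 3 * g := by ring
      _ ≤ 1 * g := mul_le_mul_of_nonneg_right (pow_le_one₀ hgp.le hg1') hgp.le
      _ = g := one_mul g
  have hg4' : g ^ 4 ≤ 1 := pow_le_one₀ hgp.le hg1'
  rw [← hg]
  -- the basic estimate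
  have key : ∀ (s : Finset (Fin d → ℤ)) (c : (Fin d → ℤ) → ℂ) (u : l2 (Fin d → ℤ)),
      ‖(inner ℂ (fv s c) (opr N u) : ℂ) - hm μ ζ * inner ℂ (fv s c) u‖ ≤
        (4 * C1 + 4 * d + C2) * g * (‖fv s c‖ * ‖u‖) := by
    intro s c u
    obtain ⟨P, hP⟩ : ∃ P : ℝ, P = ‖fv s c‖ * ‖u‖ := ⟨_, rfl⟩
    have hP0 : 0 ≤ P := by rw [hP]; positivity
    have hinn : ‖(inner ℂ (fv s c) u : ℂ)‖ ≤ P := by
      rw [hP]
      exact norm_inner_le_norm _ _
    obtain ⟨F, hF⟩ : ∃ F : ℝ → ℂ, F = fun y => ∫ v, (inner ℂ (fv s c)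
        (gr w (xs d γ ⟨ζ.re, y⟩) v u) : ℂ) ∂(Pn μ (Fin d → ℤ)) := ⟨_, rfl⟩
    have hF0 : (inner ℂ (fv s c) (opr N u) : ℂ) = F ζ.im := by
      rw [hF]
      show _ = ∫ v, (inner ℂ (fv s c) (gr w (xs d γ ⟨ζ.re, ζ.im⟩) v u) : ℂ)
        ∂(Pn μ (Fin d → ℤ))
      rw [Complex.eta, inner_fv]
      simp only [inner_fv]
      rw [integral_finsetSum]
      · refine Finset.sum_congr rfl fun i _ => ?_
        rw [integral_const_mul, hN u i]
      · intro i _
        refine Integrable.const_mul ?_ _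
        refine Integrable.of_bound ((hG d w ζ.im (xs d γ ζ) hw.le him
          (fun k => xs_im γ _ k)).2 u i).aestronglyMeasurable (1 / ζ.im * ‖u‖)
          (Eventually.of_forall fun v => ?_)
        exact (lp.norm_apply_le_norm (by norm_num) _ i).trans (res_bd hG hw γ ζ him 0 u v).1
    have hfar : ∀ y : ℝ, g ^ 4 ≤ y →
        ‖F y - hm μ ⟨ζ.re, y⟩ * inner ℂ (fv s c) u‖ ≤ 4 * d * g * P := by
      intro y hy
      have hy0 : 0 < y := (pow_pos hgp 4).trans_le hy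
      have h1 := est_far hG hO hD hw hsp γ hγ0.le (⟨ζ.re, y⟩ : ℂ) hy0 s c u
      rw [hF, hP]
      refine h1.trans ?_
      refine mul_le_mul_of_nonneg_right ?_ (by positivity)
      show 4 * d * γ / y ^ 2 ≤ 4 * d * g
      rw [div_le_iff₀ (by positivity), hγg]
      have h2 : g ^ 8 ≤ y ^ 2 := by
        calc g ^ 8 = (g ^ 4) ^ 2 := by ring
          _ ≤ y ^ 2 := pow_le_pow_left₀ (by positivity) hy 2
      calc 4 * d * g ^ 12 = (4 * d * g ^ 4) * g ^ 8 := by ring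
        _ ≤ (4 * d * g) * y ^ 2 := by
            refine mul_le_mul ?_ h2 (by positivity) (by positivity)
            exact mul_le_mul_of_nonneg_left hg4 (by positivity)
    rw [hF0, ← hP]
    by_cases hcase : g ^ 4 ≤ ζ.im
    · have h1 := hfar ζ.im hcase
      rw [Complex.eta] at h1
      refine h1.trans ?_
      have h2 : 4 * (d : ℝ) * g ≤ (4 * C1 + 4 * d + C2) * g :=
        mul_le_mul_of_nonneg_right (by linarith) hgp.le
      exact mul_le_mul_of_nonneg_right h2 hP0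
    · push Not at hcase
      have h1 := hfar (g ^ 4) le_rfl
      -- growth
      have hres := res_line (d := d) hG hO hw γ ζ.re
      have h2 : ‖F (g ^ 4) - F ζ.im‖ ≤ 4 * (C1 * P) * (g ^ 4) ^ (1 / 4 : ℝ) := by
        refine growth F (fun y => Complex.I * ∫ v, (inner ℂ (fv s c)
          (gr w (xs d γ ⟨ζ.re, y⟩) v (gr w (xs d γ ⟨ζ.re, y⟩) v u)) : ℂ)
            ∂(Pn μ (Fin d → ℤ))) (C1 * P) ζ.im (g ^ 4) (by positivity) him hcase.le ?_ ?_
        · intro y hy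
          rw [hF]
          exact hres.deriv (Pn μ (Fin d → ℤ)) (fv s c) u
            (fun y hy => res_meas hG hw γ _ hy s c u) (him.trans_le hy.1)
        · intro y hy
          have hy0 : 0 < y := him.trans_le hy.1
          have h3 := hO1 μ w y₀ hUL γ hγ0 (hγ1.trans (min_le_left _ _)) ⟨ζ.re, y⟩ hre
            (hy0'.trans hy.1) (by show y ≤ 2; linarith [hy.2]) u (fv s c)
          rw [norm_mul, Complex.norm_I, one_mul]
          refine h3.trans (le_of_eq ?_)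
          rw [hP]
          ring
      have h3 : ((g ^ 4) ^ (1 / 4 : ℝ) : ℝ) = g := by
        rw [← Real.rpow_natCast g 4, ← Real.rpow_mul hgp.le]
        norm_num
      rw [h3] at h2
      have h4 : ‖hm μ ⟨ζ.re, g ^ 4⟩ - hm μ ζ‖ ≤ C2 * g := by
        have h5 := hUL.u8 ⟨ζ.re, g ^ 4⟩ ζ (hy0'.trans hcase.le) hy0'
        refine h5.trans (mul_le_mul hC20 ?_ (norm_nonneg _) (by linarith))
        have h6 : ∀ Y : ℝ, (⟨ζ.re, Y⟩ : ℂ) - ζ = Complex.I * ((Y - ζ.im : ℝ) : ℂ) := by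
          intro Y
          apply Complex.ext <;> simp
        rw [h6 (g ^ 4), norm_mul, Complex.norm_I, one_mul, Complex.norm_real, Real.norm_eq_abs,
          abs_of_pos (by linarith)]
        linarith
      have h5 : F ζ.im - hm μ ζ * inner ℂ (fv s c) u =
          -(F (g ^ 4) - F ζ.im) + (F (g ^ 4) - hm μ ⟨ζ.re, g ^ 4⟩ * inner ℂ (fv s c) u) +
            (hm μ ⟨ζ.re, g ^ 4⟩ - hm μ ζ) * inner ℂ (fv s c) u := by ring
      rw [h5]
      have h6 : ‖(hm μ ⟨ζ.re, g ^ 4⟩ - hm μ ζ) * (inner ℂ (fv s c) u : ℂ)‖ ≤ C2 * g * P := by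
        rw [norm_mul]
        exact mul_le_mul h4 hinn (norm_nonneg _) (by positivity)
      have h7 := norm_add₃_le (a := -(F (g ^ 4) - F ζ.im))
        (b := F (g ^ 4) - hm μ ⟨ζ.re, g ^ 4⟩ * inner ℂ (fv s c) u)
        (c := (hm μ ⟨ζ.re, g ^ 4⟩ - hm μ ζ) * inner ℂ (fv s c) u)
      rw [norm_neg] at h7
      refine h7.trans ?_
      calc _ ≤ 4 * (C1 * P) * g + 4 * d * g * P + C2 * g * P := add_le_add (add_le_add h2 h1) h6
        _ = _ := by ring
  -- the symbol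
  obtain ⟨M, hM⟩ : ∃ M : C(UnitAddTorus (Fin d), ℂ), M = N + (-hm μ ζ) • 1 := ⟨_, rfl⟩
  have hMo : opr M = opr N + (-hm μ ζ) • 1 := by
    have h1 := (hO d N ((-hm μ ζ) • 1)).2.2.2.1
    have h2 := (hO d (1 : C(UnitAddTorus (Fin d), ℂ)) 1).2.2.2.2.1 (-hm μ ζ)
    have h3 := (hO d (1 : C(UnitAddTorus (Fin d), ℂ)) 1).2.2.2.2.2.1
    rw [hM, h1, h2, h3]
  have hK0 : 0 ≤ (4 * C1 + 4 * d + C2) * g := by positivity
  have hMn : ‖opr M‖ ≤ (4 * C1 + 4 * d + C2) * g := by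
    refine ContinuousLinearMap.opNorm_le_bound _ hK0 fun u => ?_
    refine norm_le_of_fv _ _ (by positivity) fun s c => ?_
    have h1 : (inner ℂ (fv s c) (opr M u) : ℂ) =
        inner ℂ (fv s c) (opr N u) - hm μ ζ * inner ℂ (fv s c) u := by
      have h2 : opr M u = opr N u + (-hm μ ζ) • u := by
        rw [hMo]
        rfl
      rw [h2, inner_add_right, inner_smul_right]
      ring
    rw [h1]
    refine (key s c u).trans (le_of_eq ?_)
    ring
  have h1 : ‖M‖ ≤ (4 * C1 + 4 * d + C2) * g := by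
    rw [← (hS d).2.1 M]
    exact hMn
  have h2 : N k - hm μ ζ = M k := by
    rw [hM, ContinuousMap.add_apply, ContinuousMap.smul_apply, ContinuousMap.one_apply,
      smul_eq_mul]
    ring
  rw [h2]
  exact (ContinuousMap.norm_coe_le_norm M k).trans h1

end

end Pool.Agent.N216.SN
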